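import Mathlib

set_option autoImplicit false

namespace Pool.Agent.Results.MP_52c3fe_co.Cex

open Finset

abbrev V (m : ℕ) : Type := Fin m → ZMod 2

/-- Walsh transform. -/
def walsh {m : ℕ} (f : V m → ZMod 2) (u : V m) : ℤ := ∑ x : V m, (-1) ^ (f x + u ⬝ᵥ x).val

/-- `f` is bent with dual `f'`. -/
def BentDual {m : ℕ} (f f' : V m → ZMod 2) : Prop :=
  ∀ u, walsh f u = 2 ^ (m / 2) * (-1) ^ (f' u).val

def lo (z : V 8) : V 4 := ![z 0, z 1, z 2, z 3]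

def hi (z : V 8) : V 4 := ![z 4, z 5, z 6, z 7]

def eq8 : V 4 × V 4 ≃ V 8 where
  toFun p := ![p.1 0, p.1 1, p.1 2, p.1 3, p.2 0, p.2 1, p.2 2, p.2 3]
  invFun z := (lo z, hi z)
  left_inv p := by
    ext i <;> fin_cases i <;> rfl
  right_inv z := by
    ext i; fin_cases i <;> rfl

theorem sgn (a b : ZMod 2) : (-1 : ℤ) ^ (a + b).val = (-1) ^ a.val * (-1) ^ b.val := by
  revert a b; decide

theorem inner : ∀ c : V 4, ∑ x : V 4, (-1 : ℤ) ^ (x ⬝ᵥ c).val = if c = 0 then 16 else 0 := by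
  decide +kernel

theorem mm (p q : V 4 → V 4) (h : ∀ y a, p y + a = 0 ↔ y = q a) :
    BentDual (fun z => lo z ⬝ᵥ p (hi z)) fun u => hi u ⬝ᵥ q (lo u) := by
  intro u
  rw [walsh, ← eq8.sum_comp, Fintype.sum_prod_type, sum_comm]
  have e : ∀ x y : V 4, lo (eq8 (x, y)) ⬝ᵥ p (hi (eq8 (x, y))) + u ⬝ᵥ eq8 (x, y) =
      x ⬝ᵥ (p y + lo u) + hi u ⬝ᵥ y := fun x y => by
    have := eq8.left_inv (x, y)
    rw [show lo (eq8 (x, y)) = x from congrArg Prod.fst this,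
      show hi (eq8 (x, y)) = y from congrArg Prod.snd this]
    simp [dotProduct, Fin.sum_univ_succ, eq8, lo, hi]
    ring
  simp only [e, sgn, ← sum_mul, inner, h, ite_mul, zero_mul, sum_ite_eq', mem_univ, if_true]
  norm_num

def P (y : V 4) : V 4 :=
  ![y 2 + y 0 * y 2 + y 0 * y 1 * y 2 + y 3 + y 0 * y 1 * y 3, y 0 + y 2 + y 0 * y 1 * y 3,
    y 0 + y 1 + y 2 + y 1 * y 2 + y 3 + y 2 * y 3 + y 0 * y 2 * y 3 + y 1 * y 2 * y 3,
    y 1 + y 2 + y 3 + y 0 * y 3 + y 1 * y 3 + y 2 * y 3 + y 1 * y 2 * y 3]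

def g (z : V 8) : ZMod 2 := lo z ⬝ᵥ hi z

def h (z : V 8) : ZMod 2 := lo z ⬝ᵥ P (hi z)

theorem p0 : ∀ y a : V 4, y + a = 0 ↔ y = a := by decide +kernel

theorem p1 : ∀ y a : V 4, P y + a = 0 ↔ y = P a + a := by decide +kernel

theorem p2 : ∀ y a : V 4, y + P y + a = 0 ↔ y = a + (P a + a) := by decide +kernel

def S1 : Fin 4 → V 8 := ![![0, 0, 0, 1, 1, 1, 0, 0], ![1, 1, 0, 1, 1, 1, 0, 0],
  ![1, 0, 1, 0, 1, 1, 0, 1], ![0, 1, 1, 0, 1, 1, 0, 1]]

def S2 : Fin 8 → V 8 := ![![0, 0, 0, 1, 0, 1, 0, 0], ![1, 1, 0, 1, 0, 1, 0, 0],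
  ![0, 0, 1, 0, 0, 0, 1, 0], ![0, 0, 0, 1, 1, 0, 1, 0], ![1, 1, 1, 1, 0, 0, 0, 1],
  ![0, 0, 0, 0, 1, 1, 0, 1], ![0, 1, 0, 0, 1, 0, 1, 1], ![0, 1, 0, 0, 1, 1, 1, 1]]

def T (t : V 4) : V 8 := ![t 0, 0, 0, 0, t 1, t 2, t 3, 0]

theorem lin {ι : Type} [Fintype ι] (S : ι → V 8) (x y : V 4) : ∑ i, h (S i + eq8 (x, y)) =
    ∑ i, lo (S i) ⬝ᵥ P (hi (S i) + y) + x ⬝ᵥ ∑ i, P (hi (S i) + y) := by
  rw [dotProduct_sum, ← sum_add_distrib]
  refine sum_congr rfl fun i _ => ?_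
  have e1 : lo (S i + eq8 (x, y)) = lo (S i) + x := by
    ext j; fin_cases j <;> rfl
  have e2 : hi (S i + eq8 (x, y)) = hi (S i) + y := by
    ext j; fin_cases j <;> rfl
  rw [h, e1, e2, add_dotProduct]

theorem d1 : ∀ y, ∑ i, lo (S1 i) ⬝ᵥ P (hi (S1 i) + y) = 1 ∧ ∑ i, P (hi (S1 i) + y) = 0 := by
  decide +kernel

theorem d2 : ∀ y, ∑ i, lo (S2 i) ⬝ᵥ P (hi (S2 i) + y) = 0 ∧ ∑ i, P (hi (S2 i) + y) = y := by
  decide +kernel

theorem d3 : ∀ y, ∑ i, lo (T i) ⬝ᵥ P (hi (T i) + y) = 1 ∧ ∑ i, P (hi (T i) + y) = 0 := by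
  decide +kernel

theorem c1 (x y : V 4) : ∑ i, h (S1 i + eq8 (x, y)) = 1 := by
  rw [lin, (d1 y).1, (d1 y).2, dotProduct_zero, add_zero]

theorem c2 (x y : V 4) : ∑ i, h (S2 i + eq8 (x, y)) = g (eq8 (x, y)) := by
  have := eq8.left_inv (x, y)
  rw [lin, (d2 y).1, (d2 y).2, zero_add, g, show lo (eq8 (x, y)) = x from congrArg Prod.fst this,
    show hi (eq8 (x, y)) = y from congrArg Prod.snd this]

theorem c3 (x y : V 4) : ∑ t, h (T t + eq8 (x, y)) = 1 := by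
  rw [lin, (d3 y).1, (d3 y).2, dotProduct_zero, add_zero]

theorem c4 : ∑ t, (g (T t) + h (T t)) = 1 ∧ ∑ t, h (0 + T t) ≠ 0 := by decide +kernel

theorem c5 : ∀ c : ZMod 2, ∑ _t : V 4, c + 1 + 1 = 0 := by decide +kernel

theorem result : ¬ ∀ m : ℕ, Even m → 0 < m → ∀ g h g' h' : V m → ZMod 2,
    BentDual g g' → BentDual h h' → BentDual (g + h) (g' + h') →
      (Matrix.of fun b x : V m => g b + h (x + b) + (g + h) x).rank =
        (Matrix.of fun x y : V m => h (x + y)).rank := by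
  intro H
  have := H 8 (by decide) (by decide) g h _ _ (mm id id p0) (mm P _ p1) (by
    have := mm _ _ p2
    simp only [dotProduct_add] at this
    simp only [dotProduct_add]
    exact this)
  rw [Matrix.rank_eq_finrank_span_row, Matrix.rank_eq_finrank_span_row] at this
  refine (Submodule.finrank_lt_finrank_of_lt (lt_of_le_of_ne (Submodule.span_le.2 ?_) ?_)).ne this
  · rintro _ ⟨b, rfl⟩
    set W := Submodule.span (ZMod 2) (Set.range (Matrix.of fun x y : V 8 => h (x + y)).row)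
    have r : ∀ a, (fun y => h (a + y)) ∈ W := fun a => Submodule.subset_span ⟨a, rfl⟩
    have e : (Matrix.of fun b x : V 8 => g b + h (x + b) + (g + h) x).row b =
        g b • (∑ i, fun y => h (S1 i + y)) + (fun y => h (b + y)) +
          ((∑ i, fun y => h (S2 i + y)) + fun y => h (0 + y)) := by
      funext z
      obtain ⟨⟨x, y⟩, rfl⟩ := eq8.surjective z
      simp only [Pi.add_apply, Pi.smul_apply, Finset.sum_apply, c1, c2, zero_add, smul_eq_mul,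
        mul_one, add_comm b]
      rfl
    rw [e]
    exact W.add_mem (W.add_mem (W.smul_mem _ (W.sum_mem fun i _ => r _)) (r _))
      (W.add_mem (W.sum_mem fun i _ => r _) (r _))
  · intro e
    let l : (V 8 → ZMod 2) →ₗ[ZMod 2] ZMod 2 := ∑ t, LinearMap.proj (T t)
    have hl : ∀ v, l v = ∑ t, v (T t) := fun v => by simp [l]
    have k : Submodule.span (ZMod 2) (Set.range
        (Matrix.of fun b x : V 8 => g b + h (x + b) + (g + h) x).row) ≤ LinearMap.ker l := by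
      refine Submodule.span_le.2 ?_
      rintro _ ⟨b, rfl⟩
      obtain ⟨⟨x, y⟩, rfl⟩ := eq8.surjective b
      rw [SetLike.mem_coe, LinearMap.mem_ker, hl]
      refine Eq.trans (b := ∑ t, (g (eq8 (x, y)) + h (T t + eq8 (x, y)) + (g (T t) + h (T t))))
        rfl ?_
      rw [sum_add_distrib, sum_add_distrib, c3, c4.1, c5]
    rw [e] at k
    have := k (Submodule.subset_span ⟨0, rfl⟩)
    rw [LinearMap.mem_ker, hl] at this
    exact c4.2 this

end Pool.Agent.Results.MP_52c3fe_co.Cex
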